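import Pool.Agent.W307.IM.Stm
import Pool.Agent.W655.RK.Full

/-!
# Project IM (helper307), part ELOW: the sum over the moduli
-/

set_option autoImplicit false

namespace Pool.Agent.W232.IM

open Finset Filter Pool.Agent.W262.RK Pool.Agent.W307.IM

/-- Mertens' lower bound for the primes in `(w, y]` -/
lemma ps_lower : ∃ C : ℝ, 0 ≤ C ∧ ∀ w y : ℕ, 3 ≤ w → 3 ≤ y →
    Real.log (Real.log y) - Real.log (Real.log w) - C ≤ ∑ p ∈ PS w y, (1 : ℝ) / p := by
  obtain ⟨C, hC⟩ := Pool.Agent.Helper256.KM.mertens_inv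
  refine ⟨2 * |C|, by positivity, fun w y hw hy => ?_⟩
  have h0 : ∑ p ∈ (Finset.Icc 1 y).filter Nat.Prime, (1 : ℝ) / p ≤
      ∑ p ∈ (Finset.Icc 1 w).filter Nat.Prime, (1 : ℝ) / p + ∑ p ∈ PS w y, (1 : ℝ) / p := by
    have hsub : (Finset.Icc 1 y).filter Nat.Prime ⊆
        (Finset.Icc 1 w).filter Nat.Prime ∪ PS w y := by
      intro p hp
      have h1 := mem_filter.1 hp
      have h2 := mem_Icc.1 h1.1
      rcases le_or_gt p w with h | h
      · exact mem_union_left _ (mem_filter.2 ⟨mem_Icc.2 ⟨h2.1, h⟩, h1.2⟩)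
      · exact mem_union_right _ (mem_filter.2 ⟨mem_Ioc.2 ⟨h, h2.2⟩, h1.2⟩)
    refine (Finset.sum_le_sum_of_subset_of_nonneg hsub fun p _ _ => by positivity).trans ?_
    have := Finset.sum_union_inter (s₁ := (Finset.Icc 1 w).filter Nat.Prime) (s₂ := PS w y)
      (f := fun p : ℕ => (1 : ℝ) / p)
    have h3 : 0 ≤ ∑ p ∈ (Finset.Icc 1 w).filter Nat.Prime ∩ PS w y, (1 : ℝ) / p :=
      Finset.sum_nonneg fun p _ => by positivity
    linarith
  have h1 := (abs_le.1 (hC y hy)).1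
  have h2 := (abs_le.1 (hC w hw)).2
  have h3 := le_abs_self C
  linarith

lemma one_add_lower (x : ℝ) (hx : 0 ≤ x) : Real.exp (x - x ^ 2 / 2) ≤ 1 + x := by
  have h := Real.le_log_one_add_of_nonneg hx
  have h2 : x - x ^ 2 / 2 ≤ 2 * x / (x + 2) := by
    rw [le_div_iff₀ (by linarith)]
    nlinarith [pow_nonneg hx 3]
  calc Real.exp (x - x ^ 2 / 2) ≤ Real.exp (Real.log (1 + x)) := Real.exp_le_exp.2 (h2.trans h)
    _ = 1 + x := Real.exp_log (by linarith)

lemma prod_lower (κ : ℝ) (hκ : 0 < κ) : ∃ K : ℝ, 0 ≤ K ∧ ∀ S : Finset ℕ,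
    Real.exp (κ * ∑ p ∈ S, (1 : ℝ) / p - K) ≤ ∏ p ∈ S, (1 + κ / (p : ℝ)) := by
  obtain ⟨K, hK0, hK⟩ := Pool.Agent.W655.RK.sum_inv_sq
  refine ⟨κ ^ 2 / 2 * K, by positivity, fun S => ?_⟩
  have h1 : κ * ∑ p ∈ S, (1 : ℝ) / p - κ ^ 2 / 2 * K ≤
      ∑ p ∈ S, (κ / (p : ℝ) - (κ / (p : ℝ)) ^ 2 / 2) := by
    have h2 : ∑ p ∈ S, (κ / (p : ℝ) - (κ / (p : ℝ)) ^ 2 / 2) =
        κ * ∑ p ∈ S, (1 : ℝ) / p - κ ^ 2 / 2 * ∑ p ∈ S, 1 / (p : ℝ) ^ 2 := by
      rw [Finset.sum_sub_distrib, Finset.mul_sum, Finset.mul_sum]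
      congr 1
      · exact Finset.sum_congr rfl fun p _ => by ring
      · exact Finset.sum_congr rfl fun p _ => by rw [div_pow]; ring
    rw [h2]
    have := mul_le_mul_of_nonneg_left (hK S) (by positivity : 0 ≤ κ ^ 2 / 2)
    linarith
  calc Real.exp (κ * ∑ p ∈ S, (1 : ℝ) / p - κ ^ 2 / 2 * K)
      ≤ Real.exp (∑ p ∈ S, (κ / (p : ℝ) - (κ / (p : ℝ)) ^ 2 / 2)) := Real.exp_le_exp.2 h1
    _ = ∏ p ∈ S, Real.exp (κ / (p : ℝ) - (κ / (p : ℝ)) ^ 2 / 2) := Real.exp_sum _ _
    _ ≤ ∏ p ∈ S, (1 + κ / (p : ℝ)) := Finset.prod_le_prod (fun p _ => (Real.exp_pos _).le)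
        fun p _ => one_add_lower _ (by positivity)

lemma term_eq (κ : ℝ) (w y e : ℕ) (he : e ∈ (PP w y).divisors) :
    κ ^ e.primeFactors.card / (e : ℝ) = ∏ p ∈ e.primeFactors, κ / (p : ℝ) := by
  have hsq : Squarefree (PP w y) := Pool.Agent.W655.RK.prod_primes_squarefree _
    fun p hp => Pool.Agent.W655.RK.PS_prime hp
  have hes : Squarefree e := hsq.squarefree_of_dvd (Nat.dvd_of_mem_divisors he)
  have h := Nat.prod_primeFactors_of_squarefree hes
  rw [Finset.prod_div_distrib, Finset.prod_const]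
  congr 1
  conv_lhs => rw [← h]
  push_cast
  rfl

lemma sum_eq (κ : ℝ) (w y : ℕ) :
    ∑ e ∈ (PP w y).divisors, κ ^ e.primeFactors.card / (e : ℝ) =
      ∏ p ∈ PS w y, (1 + κ / (p : ℝ)) := by
  rw [← Pool.Agent.W655.RK.sum_mult (PS w y) (fun p hp => Pool.Agent.W655.RK.PS_prime hp)
    (fun p => κ / (p : ℝ))]
  exact Finset.sum_congr rfl fun e he => term_eq κ w y e he

/-- main split -/
lemma split (κ : ℝ) (hκ : 0 < κ) (w y K : ℕ) :
    ∏ p ∈ PS w y, (1 + κ / (p : ℝ)) - (1 / 2) ^ K * ∏ p ∈ PS w y, (1 + 2 * κ / (p : ℝ)) ≤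
      ∑ e ∈ (PP w y).divisors.filter (fun e => e.primeFactors.card ≤ K),
        κ ^ e.primeFactors.card / (e : ℝ) := by
  have h1 := Finset.sum_filter_add_sum_filter_not (PP w y).divisors
    (fun e => e.primeFactors.card ≤ K) (fun e => κ ^ e.primeFactors.card / (e : ℝ))
  rw [sum_eq] at h1
  have h2 : ∑ e ∈ (PP w y).divisors.filter (fun e => ¬ e.primeFactors.card ≤ K),
      κ ^ e.primeFactors.card / (e : ℝ) ≤
        (1 / 2) ^ K * ∏ p ∈ PS w y, (1 + 2 * κ / (p : ℝ)) := by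
    rw [← sum_eq (2 * κ), Finset.mul_sum]
    calc ∑ e ∈ (PP w y).divisors.filter (fun e => ¬ e.primeFactors.card ≤ K),
        κ ^ e.primeFactors.card / (e : ℝ) ≤
        ∑ e ∈ (PP w y).divisors.filter (fun e => ¬ e.primeFactors.card ≤ K),
          (1 / 2) ^ K * ((2 * κ) ^ e.primeFactors.card / (e : ℝ)) := by
          refine Finset.sum_le_sum fun e he => ?_
          have hK : K ≤ e.primeFactors.card := by
            have := (mem_filter.1 he).2
            omega
          rw [mul_pow, ← mul_div_assoc]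
          apply div_le_div_of_nonneg_right _ (Nat.cast_nonneg e)
          have h3 : (1 : ℝ) ≤ (1 / 2) ^ K * 2 ^ e.primeFactors.card := by
            obtain ⟨j, hj⟩ := Nat.exists_eq_add_of_le hK
            rw [hj, pow_add, ← mul_assoc, ← mul_pow]
            norm_num
            exact one_le_pow₀ (by norm_num)
          have h4 : (0 : ℝ) ≤ κ ^ e.primeFactors.card := by positivity
          calc κ ^ e.primeFactors.card = 1 * κ ^ e.primeFactors.card := (one_mul _).symm
            _ ≤ ((1 / 2) ^ K * 2 ^ e.primeFactors.card) * κ ^ e.primeFactors.card :=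
              mul_le_mul_of_nonneg_right h3 h4
            _ = _ := by ring
      _ ≤ _ := Finset.sum_le_sum_of_subset_of_nonneg (Finset.filter_subset _ _)
          fun e _ _ => by positivity
  linarith

/-- the comparison of the parameters -/
lemma params (A K0 T : ℕ) (h6 : 6 ≤ Real.log T) (hL : 1 ≤ Real.log (Real.log T))
    (hbig : 8 * ((K0 : ℝ) + 1) * Real.log (Real.log T) ≤ Real.log T) :
    3 ≤ wT A T ∧ 3 ≤ yT K0 T ∧
    Real.log (Real.log (wT A T)) ≤ Real.log (A + 1) + Real.log (Real.log (Real.log T)) ∧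
    Real.log (Real.log T) - Real.log (8 * ((K0 : ℝ) + 1)) - Real.log (Real.log (Real.log T)) ≤
      Real.log (Real.log (yT K0 T)) ∧
    Real.log (Real.log (yT K0 T)) ≤ Real.log (Real.log T) ∧
    (K0 : ℝ) * Real.log (Real.log T) ≤ kT K0 T := by
  set l := Real.log T with hl
  set L := Real.log l with hLdef
  have hl0 : 0 < l := by linarith
  have hL0 : 0 < L := by linarith
  have hT0 : (0 : ℝ) < T := by
    rcases Nat.eq_zero_or_pos T with h | h
    · rw [h] at hl; simp at hl; linarith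
    · exact_mod_cast h
  have hT1 : (1 : ℝ) ≤ T := by
    have : 0 < T := by exact_mod_cast hT0
    exact_mod_cast this
  have hA0 : (0 : ℝ) ≤ A := Nat.cast_nonneg A
  have hK00 : (0 : ℝ) ≤ K0 := Nat.cast_nonneg K0
  -- w
  have hw5 : 5 ≤ wT A T := by unfold wT; omega
  have hwle : (wT A T : ℝ) ≤ l ^ (A + 1) := by
    unfold wT
    push_cast
    have h1 : ((⌊l ^ A⌋₊ : ℕ) : ℝ) ≤ l ^ A := Nat.floor_le (by positivity)
    have h2 : (1 : ℝ) ≤ l ^ A := one_le_pow₀ (by linarith)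
    rw [pow_succ]
    nlinarith
  have hw0 : (1 : ℝ) < wT A T := by
    have : (5 : ℝ) ≤ wT A T := by exact_mod_cast hw5
    linarith
  have hlogw : Real.log (wT A T) ≤ (A + 1) * L := by
    calc Real.log (wT A T) ≤ Real.log (l ^ (A + 1)) := Real.log_le_log (by linarith) hwle
      _ = (A + 1) * L := by rw [Real.log_pow]; push_cast; ring
  have hllw : Real.log (Real.log (wT A T)) ≤ Real.log (A + 1) + Real.log L := by
    rw [← Real.log_mul (by positivity) hL0.ne']
    exact Real.log_le_log (Real.log_pos hw0) hlogw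
  -- K
  have hKge : (K0 : ℝ) * L ≤ kT K0 T := by
    unfold kT
    push_cast
    exact (Nat.lt_floor_add_one _).le
  have hKle : (kT K0 T : ℝ) ≤ (K0 + 1) * L := by
    unfold kT
    push_cast
    have := Nat.floor_le (show 0 ≤ (K0 : ℝ) * L by positivity)
    nlinarith
  have hK1 : (1 : ℝ) ≤ kT K0 T := by
    have : 1 ≤ kT K0 T := by unfold kT; omega
    exact_mod_cast this
  -- y
  set K : ℝ := (kT K0 T : ℝ) with hKdef
  have hK0' : 0 < K := by linarith
  set x : ℝ := l / (4 * K) with hx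
  have hx2 : 2 ≤ x := by
    rw [hx, le_div_iff₀ (by positivity)]
    nlinarith
  have hpow : (T : ℝ) ^ (1 / (4 * K)) = Real.exp x := by
    rw [Real.rpow_def_of_pos hT0, hx, ← hl]
    congr 1
    ring
  have hu2 : 2 ≤ Real.exp (x / 2) := by
    have h1 : (1 : ℝ) ≤ x / 2 := by linarith
    have := Real.add_one_le_exp (x / 2)
    linarith
  have hu : Real.exp x = Real.exp (x / 2) ^ 2 := by
    rw [← Real.exp_nat_mul]; congr 1; push_cast; ring
  have hyge : Real.exp x - 1 ≤ (yT K0 T : ℝ) := by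
    unfold yT
    rw [← hKdef, hpow]
    have := Nat.lt_floor_add_one (Real.exp x)
    linarith
  have hyge2 : Real.exp (x / 2) ≤ (yT K0 T : ℝ) := by
    rw [hu] at hyge
    nlinarith
  have hy3 : (3 : ℝ) ≤ (yT K0 T : ℝ) := by
    rw [hu] at hyge
    nlinarith
  have hyle : (yT K0 T : ℝ) ≤ T := by
    unfold yT
    rw [← hKdef]
    refine (Nat.floor_le (by positivity)).trans ?_
    calc (T : ℝ) ^ (1 / (4 * K)) ≤ (T : ℝ) ^ (1 : ℝ) := by
          apply Real.rpow_le_rpow_of_exponent_le hT1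
          rw [div_le_one (by positivity)]
          linarith
      _ = T := Real.rpow_one _
  have hlogy0 : 0 < Real.log (yT K0 T) := Real.log_pos (by linarith)
  have hlogy : x / 2 ≤ Real.log (yT K0 T) := by
    rw [Real.le_log_iff_exp_le (by linarith)]
    exact hyge2
  have hlogyle : Real.log (yT K0 T) ≤ l := Real.log_le_log (by linarith) hyle
  refine ⟨by omega, by exact_mod_cast hy3, hllw, ?_, Real.log_le_log hlogy0 hlogyle, hKge⟩
  have h8 : L - Real.log (8 * ((K0 : ℝ) + 1)) - Real.log L =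
      Real.log (l / (8 * ((K0 : ℝ) + 1) * L)) := by
    rw [Real.log_div hl0.ne' (by positivity), Real.log_mul (by positivity) hL0.ne']
    ring
  rw [h8]
  refine Real.log_le_log (by positivity) (le_trans ?_ hlogy)
  rw [hx, div_div, div_le_div_iff₀ (by positivity) (by positivity)]
  nlinarith

theorem elow : Pool.Agent.W307.IM.ELOW := by
  intro κ hκ
  refine ⟨⌈4 * κ + 2⌉₊, fun K0 A hK0 => ?_⟩
  obtain ⟨C1, hC10, hC1⟩ := ps_lower
  obtain ⟨C2, hC20, hC2⟩ := Pool.Agent.W655.RK.mertens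
  obtain ⟨C3, hC30, hC3⟩ := prod_lower κ hκ
  have hK0' : 4 * κ + 2 ≤ (K0 : ℝ) :=
    (Nat.le_ceil _).trans (by exact_mod_cast hK0)
  set d : ℝ := κ * (Real.log (8 * ((K0 : ℝ) + 1)) + Real.log (A + 1) + C1) + C3 with hd
  refine ⟨2 * κ + 1, ?_⟩
  -- eventually
  have t1 : Tendsto (fun T : ℕ => Real.log T) atTop atTop :=
    Real.tendsto_log_atTop.comp tendsto_natCast_atTop_atTop
  have t2 : Tendsto (fun T : ℕ => Real.log (Real.log T)) atTop atTop :=
    Real.tendsto_log_atTop.comp t1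
  have t3 : Tendsto (fun T : ℕ => Real.log (Real.log (Real.log T))) atTop atTop :=
    Real.tendsto_log_atTop.comp t2
  have e1 := t1.eventually (eventually_ge_atTop 6)
  have e2 := t2.eventually (eventually_ge_atTop 1)
  have e3 := t1.eventually (Real.isLittleO_log_id_atTop.bound
    (show (0 : ℝ) < 1 / (8 * ((K0 : ℝ) + 1)) by positivity))
  have e4 := t3.eventually (eventually_ge_atTop (d + 1))
  have e5 := t2.eventually (Real.isLittleO_log_id_atTop.bound
    (show (0 : ℝ) < 1 / (2 * κ + 1) by positivity))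
  have e6 := t2.eventually (eventually_ge_atTop ((d + 1 + 2 * κ * C2) / κ))
  obtain ⟨T0, hT0⟩ := eventually_atTop.1 (e1.and (e2.and (e3.and (e4.and (e5.and e6)))))
  refine ⟨T0, fun T hT => ?_⟩
  obtain ⟨h1, h2, h3, h4, h5, h6⟩ := hT0 T hT
  have hL0 : 0 < Real.log (Real.log T) := by linarith
  have hl0 : 0 < Real.log T := by linarith
  have hbig : 8 * ((K0 : ℝ) + 1) * Real.log (Real.log T) ≤ Real.log T := by
    have h7 : Real.log (Real.log T) ≤ 1 / (8 * ((K0 : ℝ) + 1)) * Real.log T := by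
      have h8 := h3
      simp only [id, Real.norm_eq_abs] at h8
      rw [abs_of_pos hL0, abs_of_pos hl0] at h8
      exact h8
    rw [div_mul_eq_mul_div, one_mul, le_div_iff₀ (by positivity)] at h7
    linarith
  obtain ⟨hw3, hy3, hw, hyl, hyu, hK⟩ := params A K0 T h1 h2 hbig
  set L := Real.log (Real.log T) with hL
  set M := Real.log L with hM
  have h5' : (2 * κ + 1) * M ≤ L := by
    have h8 := h5
    simp only [id, Real.norm_eq_abs] at h8
    rw [abs_of_pos hL0] at h8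
    have h9 := (le_abs_self _).trans h8
    rw [div_mul_eq_mul_div, one_mul, le_div_iff₀ (by positivity)] at h9
    linarith
  have h6' : d + 1 + 2 * κ * C2 ≤ κ * L := by
    rw [div_le_iff₀ hκ] at h6
    linarith
  have hsp := split κ hκ (wT A T) (yT K0 T) (kT K0 T)
  have hdef : ∑ e ∈ ME A K0 T, κ ^ e.primeFactors.card / (e : ℝ) =
      ∑ e ∈ (PP (wT A T) (yT K0 T)).divisors.filter
        (fun e => e.primeFactors.card ≤ kT K0 T), κ ^ e.primeFactors.card / (e : ℝ) := by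
    unfold ME
    apply Finset.sum_congr _ fun _ _ => rfl
    ext e
    simp only [mem_filter]
  rw [hdef]
  refine le_trans ?_ hsp
  have hmain : Real.exp (κ * L - 2 * κ * M - d) ≤
      ∏ p ∈ PS (wT A T) (yT K0 T), (1 + κ / (p : ℝ)) := by
    refine le_trans (Real.exp_le_exp.2 ?_) (hC3 _)
    have h7 := hC1 _ _ hw3 hy3
    have h8 : L - Real.log (8 * ((K0 : ℝ) + 1)) - M - (Real.log (A + 1) + M) - C1 ≤
        ∑ p ∈ PS (wT A T) (yT K0 T), (1 : ℝ) / p := by linarith
    have h9 := mul_le_mul_of_nonneg_left h8 hκ.le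
    rw [hd]
    linarith
  have htail : (1 / 2 : ℝ) ^ (kT K0 T) * ∏ p ∈ PS (wT A T) (yT K0 T), (1 + 2 * κ / (p : ℝ)) ≤
      Real.exp (-L + 2 * κ * C2) := by
    have h7 : ∏ p ∈ PS (wT A T) (yT K0 T), (1 + 2 * κ / (p : ℝ)) ≤
        Real.exp (2 * κ * (L + C2)) := by
      refine (Pool.Agent.W655.RK.prod_le_exp _ _ fun p _ => by positivity).trans ?_
      refine Real.exp_le_exp.2 ?_
      have h8 : ∑ p ∈ PS (wT A T) (yT K0 T), 2 * κ / (p : ℝ) =
          2 * κ * ∑ p ∈ PS (wT A T) (yT K0 T), (1 : ℝ) / p := by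
        rw [Finset.mul_sum]
        exact Finset.sum_congr rfl fun p _ => by ring
      rw [h8]
      refine mul_le_mul_of_nonneg_left ?_ (by positivity)
      have := hC2 (wT A T) (yT K0 T) (by omega)
      linarith
    have h8 : (1 / 2 : ℝ) ^ (kT K0 T) ≤ Real.exp (-(2 * κ + 1) * L) := by
      have h9 : (1 / 2 : ℝ) ^ (kT K0 T) = Real.exp (-((kT K0 T : ℝ) * Real.log 2)) := by
        rw [Real.exp_neg, Real.exp_nat_mul, Real.exp_log (by norm_num), one_div, inv_pow]
      rw [h9]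
      refine Real.exp_le_exp.2 ?_
      have h10 : (1 : ℝ) / 2 ≤ Real.log 2 := by
        have := Real.log_two_gt_d9
        linarith
      have h11 : (2 * κ + 1) * L ≤ (kT K0 T : ℝ) * Real.log 2 := by
        calc (2 * κ + 1) * L = ((4 * κ + 2) * L) * (1 / 2) := by ring
          _ ≤ (kT K0 T : ℝ) * Real.log 2 := by
            apply mul_le_mul _ h10 (by norm_num) (Nat.cast_nonneg _)
            refine le_trans ?_ hK
            exact mul_le_mul_of_nonneg_right hK0' hL0.le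
      linarith
    calc (1 / 2 : ℝ) ^ (kT K0 T) * ∏ p ∈ PS (wT A T) (yT K0 T), (1 + 2 * κ / (p : ℝ))
        ≤ Real.exp (-(2 * κ + 1) * L) * Real.exp (2 * κ * (L + C2)) :=
          mul_le_mul h8 h7 (Finset.prod_nonneg fun p _ => by positivity) (Real.exp_pos _).le
      _ = Real.exp (-L + 2 * κ * C2) := by rw [← Real.exp_add]; congr 1; ring
  have hlhs : (Real.log T) ^ κ / L ^ (2 * κ + 1) =
      Real.exp (κ * L - (2 * κ + 1) * M) := by
    rw [Real.rpow_def_of_pos hl0, Real.rpow_def_of_pos hL0, ← Real.exp_sub]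
    congr 1
    rw [← hL, ← hM]
    ring
  rw [hlhs]
  have hR1 : Real.exp (κ * L - (2 * κ + 1) * M) ≤
      Real.exp (-1) * Real.exp (κ * L - 2 * κ * M - d) := by
    rw [← Real.exp_add]
    refine Real.exp_le_exp.2 ?_
    linarith
  have hR2 : Real.exp (-L + 2 * κ * C2) ≤
      Real.exp (-1) * Real.exp (κ * L - 2 * κ * M - d) := by
    rw [← Real.exp_add]
    refine Real.exp_le_exp.2 ?_
    have hM0 : 0 ≤ M := Real.log_nonneg h2
    nlinarith
  have he : Real.exp (-1) ≤ 1 / 2 := by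
    rw [Real.exp_neg, one_div]
    refine inv_anti₀ (by norm_num) ?_
    have := Real.add_one_le_exp (1 : ℝ)
    linarith
  have hRp := Real.exp_pos (κ * L - 2 * κ * M - d)
  nlinarith

end Pool.Agent.W232.IM
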